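import Mathlib
import Pool.Agent.Q103.LTS.Ht
import Pool.Agent.W223.AC.MasterK
import Pool.Agent.Results.MP_9a3c31_nt.DegreeFreeLangSilverman

/-!
# The dynamical Lehmer inequality for Lattès maps without the factor `1 / [L : K]`, over all fields of
# small root discriminant

Let `E : y² = x³ + a x + b` be an elliptic curve over a number field. The Lattès maps of `E` are the
maps `φ_m` of degree `m²` of the projective line with `φ_m (x(P)) = x(m P)`; for `m = 2` this is
`(x⁴ - 2 a x² - 8 b x + a²) / (4 (x³ + a x + b))`. The dynamical Lehmer conjecture predicts a lower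
bound `C / [L : K]` for the canonical heights of the wandering points over `L`.

For `j ∈ K`, `poleCount j` is the sum of `log N v` over the finite poles `v` of `j`, and `addCount j`
that over the primes `v`, prime to `6` and not poles of `j`, at which all elliptic curves over `K` of
invariant `j` have additive reduction of a type other than `I₀*`.

(1) Let `K` be a number field, `0 < θ ≤ 1`, and `j ∈ K` with
`poleCount j + addCount j / 2 ≥ (θ + κ) h(j)` and of absolute height at least `C / θ²`. Then for ALL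
finite extensions `L` of `K`, of whatever degree, with root discriminant `δ_L ≤ δ_K * H(j) ^ κ`, all
elliptic curves over `L` of invariant `j`, all Lattès maps `φ_m`, `m ≥ 2`, and all wandering points
`x` over `L`, the canonical height of `x` is at least `(θ⁶ / 290000) (1 + h(j))`: there is no
dependence on the degree of `L` or on the degree of the map, and the bound is proportional to the
height of `j`, as in the conjecture of Silverman. So, conversely, a point `x` with a smaller
canonical height, as in the conjecture of Lehmer, generates a field `L = K(x)` with root discriminant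
`δ_L > δ_K * H(j) ^ κ`.

(2) The conclusion of (1) holds for all `j ∈ K` of height at most `B` with at most
`(C * B ^ (1 / 3 + 4 (θ + κ) / 3 + ε)) ^ n` exceptions, `n = [K : ℚ]`, with `C` independent of `K`,
while there are at least `(C⁻¹ * B ^ (2 - ε) * δ_K ^ (- (2 + ε))) ^ n` invariants if
`B ≥ 16 √δ_K`.
-/

set_option autoImplicit false

namespace Pool.Agent.Results.MP_2194ec_nt.LattesDegreeFree

open NumberField IsDedekindDomain
open Pool.Agent.TH942 (SPt)
open Pool.Agent.Results.MP_9a3c31_nt.DegreeFreeLangSilverman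

/-- `v` is preperiodic for `φ` (a map in homogeneous coordinates) as a point of the projective
line: two iterates are proportional. -/
def Preperiodic {L : Type} [Field L] (φ : L × L → L × L) (v : L × L) : Prop :=
  ∃ i k : ℕ, k < i ∧ (φ^[i] v).1 * (φ^[k] v).2 = (φ^[i] v).2 * (φ^[k] v).1

/-- The point `v = (v.1 : v.2)` of the projective line is `x(P) / D`, where `P` is a point of the
quadratic twist `y² = x³ + D² a x + D³ b` of `y² = x³ + a x + b`. -/
def Below {L : Type} [Field L] {a b : L} (D : L) (P : SPt (a * D ^ 2) (b * D ^ 3)) (v : L × L) :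
    Prop :=
  ∃ c : L, c ≠ 0 ∧ v = (c * P.xRep 0, c * D * P.xRep 1)

open Classical in
/-- `φ` (in homogeneous coordinates) is the Lattès map `x(P) ↦ x(m P)` of `y² = x³ + a x + b`, on the
projective line over `L`: all points of the line over `L` come from the points over `L` of the
quadratic twists. -/
def IsLattes {L : Type} [Field L] (m : ℕ) (a b : L) (φ : L × L → L × L) : Prop :=
  ∀ D : L, D ≠ 0 → ∀ (P : SPt (a * D ^ 2) (b * D ^ 3)) (v : L × L), Below D P v →
    Below D (m • P) (φ v)

/-- the Lattès map of degree `4` in homogeneous coordinates -/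
def lattes {L : Type} [Field L] (a b : L) (v : L × L) : L × L :=
  (v.1 ^ 4 - 2 * a * v.1 ^ 2 * v.2 ^ 2 - 8 * b * v.1 * v.2 ^ 3 + a ^ 2 * v.2 ^ 4,
    4 * v.2 * (v.1 ^ 3 + a * v.1 * v.2 ^ 2 + b * v.2 ^ 3))

/-- The canonical height `ĥ(v) = lim h(φ^k(v)) / d ^ k` (with the absolute height `h`) exists and is at
least `c` for all wandering points `v` of the projective line over `L`. -/
def WanderingBound {L : Type} [Field L] [NumberField L] (d c : ℝ) (φ : L × L → L × L) : Prop :=
  ∀ v : L × L, v ≠ 0 → ¬ Preperiodic φ v → ∃ h : ℝ,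
    Filter.Tendsto (fun k : ℕ => Height.logHeight ![(φ^[k] v).1, (φ^[k] v).2] /
      Module.finrank ℚ L / d ^ k) Filter.atTop (nhds h) ∧ c ≤ h

/-- For all finite extensions `L` of `K` with root discriminant at most `δ_K * H(j) ^ κ`, all
elliptic curves over `L` of invariant `j` and all their Lattès maps `φ_m`, `m ≥ 2`: the canonical
height of all wandering points over `L` is at least `c (1 + h(j))`. -/
def Lehmer {K : Type} [Field K] [NumberField K] (κ c : ℝ) (j : K) : Prop :=
  ∀ (L : Type) [Field L] [NumberField L] [Algebra K L],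
    rootDisc L ≤ rootDisc K * Real.exp (κ * absH j) →
    ∀ a b : L, 4 * a ^ 3 + 27 * b ^ 2 ≠ 0 → jInv a b = algebraMap K L j →
    ∀ (m : ℕ) (φ : L × L → L × L), 2 ≤ m → IsLattes m a b φ →
      WanderingBound ((m : ℝ) ^ 2) (c * (1 + absH j)) φ

private theorem absH_ext {K : Type} [Field K] [NumberField K] (L : Type) [Field L] [NumberField L]
    [Algebra K L] (j : K) : absH (algebraMap K L j) = absH j := by
  have h : Height.logHeight₁ (algebraMap K L j) = Module.finrank K L * Height.logHeight₁ j :=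
    Pool.Agent.W223.AC.MK.log_height_ext (K := K) L j
  have h1 : (Module.finrank ℚ L : ℝ) = Module.finrank ℚ K * Module.finrank K L := by
    rw [← Nat.cast_mul, Module.finrank_mul_finrank]
  have h2 : (0 : ℝ) < Module.finrank ℚ K := by exact_mod_cast Module.finrank_pos
  have h3 : (0 : ℝ) < Module.finrank K L := by exact_mod_cast Module.finrank_pos
  unfold absH
  rw [h, h1]
  field_simp

open Classical in
private theorem bound_of {K : Type} [Field K] [NumberField K] {κ c B : ℝ} {j : K}
    (h : InExtensions κ c B j) : Lehmer κ c j := by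
  intro L _ _ _ hL a b hD hj m φ hm hφ v hv hw
  obtain ⟨D, hD0, P, hP⟩ := Pool.Agent.Q103.LTS.exists_over' hD v hv
  have hn : (0 : ℝ) < Module.finrank ℚ L := by exact_mod_cast Module.finrank_pos
  have hDt := Pool.Agent.Q103.LTS.twist_disc hD0 hD
  have hlim := Pool.Agent.Q103.LTS.tendsto_lattes hm hD0 hD hφ P hP
  refine ⟨Pool.Agent.TH910.LS.chat P / Module.finrank ℚ L, ?_, ?_⟩
  · refine (hlim.div_const _).congr fun k => ?_
    ring
  have hj' : jInv (a * D ^ 2) (b * D ^ 3) = algebraMap K L j := by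
    rw [← hj]
    unfold jInv
    have h1 : 4 * (a * D ^ 2) ^ 3 + 27 * (b * D ^ 3) ^ 2 = D ^ 6 * (4 * a ^ 3 + 27 * b ^ 2) := by
      ring
    have h2 : 6912 * (a * D ^ 2) ^ 3 = D ^ 6 * (6912 * a ^ 3) := by ring
    rw [h1, h2, mul_div_mul_left _ _ (pow_ne_zero _ hD0)]
  have hnt : ¬ IsOfFinAddOrder (fun _ : Fin 1 => P) := by
    intro h1
    apply hw
    apply Pool.Agent.Q103.LTS.preper_of_tors hφ hD0 P hP
    rw [isOfFinAddOrder_iff_nsmul_eq_zero] at h1 ⊢
    obtain ⟨n, hn, hn0⟩ := h1
    have h2 := congrFun hn0 0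
    rw [Pi.smul_apply, Pi.zero_apply] at h2
    exact ⟨n, hn, h2⟩
  have hM : ((1 : Matrix (Fin 1) (Fin 1) ℤ).map (Int.cast : ℤ → ℝ)).PosDef := by
    have e : (1 : Matrix (Fin 1) (Fin 1) ℤ).map (Int.cast : ℤ → ℝ) = 1 := by
      ext i k
      fin_cases i
      fin_cases k
      simp
    rw [e]
    exact Matrix.PosDef.one
  have h4 := (h L hL _ _ hDt hj').2 ∅ (by simp) 1 1 hM (fun _ => P) hnt
  rw [Pool.Agent.Q103.LTS.chatM_one hDt, Finset.sum_empty, zero_div, add_zero, absH_ext L j] at h4
  exact h4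

/-- **Main theorem.**
(1) The lower bound `(θ⁶ / 290000) (1 + h(j))` for the canonical heights of the wandering points of
the Lattès maps, for a single invariant `j ∈ K` and all finite extensions `L` of `K` with root
discriminant at most `δ_K * H(j) ^ κ`, if `poleCount j + addCount j / 2 ≥ (θ + κ) h(j)` and the absolute
height of `j` is at least `C / θ²`.
(2) The exceptional invariants.
(3) The number of all invariants.
(4) The map of degree `4` is the Lattès map with `m = 2`. -/
theorem result :
    (∃ C : ℝ, 0 < C ∧ ∀ θ κ : ℝ, 0 < θ → θ ≤ 1 →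
      ∀ (K : Type) [Field K] [NumberField K] (j : K), j ≠ 0 → j ≠ 1728 →
        (θ + κ) * Height.logHeight₁ j ≤ poleCount j + addCount j / 2 → C / θ ^ 2 ≤ absH j →
        Lehmer κ (θ ^ 6 / 290000) j) ∧
    (∀ θ κ ε : ℝ, 0 < θ → θ ≤ 1 → 0 ≤ κ → 0 < ε → ∃ C : ℝ, 0 < C ∧
      ∀ (K : Type) [Field K] [NumberField K] (B : ℝ), 1 ≤ B →
        (Inv K B).Finite ∧
        ((({j ∈ Inv K B | ¬ Lehmer κ (θ ^ 6 / 290000) j} : Set K).ncard : ℕ) : ℝ) ≤
          (C * B ^ (1 / 3 + 4 / 3 * (θ + κ) + ε)) ^ Module.finrank ℚ K) ∧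
    (∀ ε : ℝ, 0 < ε → ∃ C : ℝ, 0 < C ∧
      ∀ (K : Type) [Field K] [NumberField K] (B : ℝ), 16 * √(rootDisc K) ≤ B →
        (C⁻¹ * B ^ (2 - ε) * rootDisc K ^ (-(2 + ε))) ^ Module.finrank ℚ K ≤
          ((Inv K B).ncard : ℝ)) ∧
    (∀ (L : Type) [Field L] [CharZero L] (a b : L), 4 * a ^ 3 + 27 * b ^ 2 ≠ 0 →
      IsLattes 2 a b (lattes a b)) := by
  classical
  refine ⟨?_, ?_, MP_9a3c31_nt.DegreeFreeLangSilverman.result.2.2.2.1, ?_⟩
  · obtain ⟨C, hC, h⟩ := part_two
    exact ⟨C, hC, fun θ κ hθ hθ1 K _ _ j h0 h1 hf hh =>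
      bound_of (h θ κ hθ hθ1 K j h0 h1 hf hh)⟩
  · intro θ κ ε hθ hθ1 hκ hε
    obtain ⟨C, hC, h⟩ := part_three θ κ ε hθ hθ1 hκ hε
    refine ⟨C, hC, fun K _ _ B hB => ?_⟩
    obtain ⟨h1, h2⟩ := h K B hB
    refine ⟨h1, le_trans ?_ h2⟩
    have h3 : (Exc K θ κ B).Finite := h1.subset fun j hj => hj.1
    have h4 : {j ∈ Inv K B | ¬ Lehmer κ (θ ^ 6 / 290000) j} ⊆ Exc K θ κ B := by
      rintro j ⟨hj1, hj2⟩
      exact ⟨hj1, fun h5 => hj2 (bound_of h5)⟩
    exact_mod_cast Set.ncard_le_ncard h4 h3
  · intro L _ _ a b hD D hD0 P v hv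
    have := Pool.Agent.Q103.LTS.isLattes_lat hD D hD0 P v hv
    exact this

end Pool.Agent.Results.MP_2194ec_nt.LattesDegreeFree
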