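import Mathlib
import Pool.Agent.Q273.LF.Fin

/-!
# The degree-free Lehmer inequality for Lattès maps near almost every adelic point

Let `K` be a number field. The Lattès maps `φ_m : x(P) ↦ x(m P)`, `m ≥ 2`, of the elliptic curves `E`
of a given invariant `j ∈ K` have the property `Lehmer κ c` if over ALL finite extensions `L` of `K`,
of whatever degree, with root discriminant `δ_L ≤ δ_K * H(j) ^ κ`, the canonical heights of all
wandering points over `L` are at least `c (1 + h(j))`, without the factor `1 / [L : K]`.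

We write `j = 1728 y`. The target is an integral adelic point `u = (ξ, η)`: `ξ ∈ K ⊗ ℝ` and
`η = (η_v)_v` in the product of the rings `O_v`. The theorem says that, for almost every `u`, the
property holds, with constants depending only on the proximity, for ALL but finitely many invariants
near `u`, and for all but finitely many members near `u` of every one-parameter family whose
`j`-invariant has at least two different poles; and it bounds the Hausdorff dimensions of the sets
of the other targets, in every completion of `K`.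
-/

set_option autoImplicit false

open MeasureTheory NumberField IsDedekindDomain NumberField.mixedEmbedding Polynomial

namespace Pool.Agent.Results.MP_2194ec_nt.NearAlmostEveryAdele

open Pool.Agent.Results.MP_9a3c31_nt.DegreeFreeLangSilverman (absH)
open Pool.Agent.Results.MP_2194ec_nt.LattesDegreeFree (Lehmer)
open Pool.Agent.Results.MP_2194ec_nt.LattesFamilies (TwoPoles)

variable {K : Type} [Field K] [NumberField K]

/-- the group of the integral finite adelic points: the product over all primes `v` of the rings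
`O_v`, with the product topology -/
abbrev FinAd (K : Type) [Field K] [NumberField K] : Type :=
  (v : HeightOneSpectrum (𝓞 K)) → v.adicCompletionIntegers K

/-- the proximity function at the infinite place `w`:
`[K_w : ℝ] / [K : ℚ] log max (1, 1 / |ξ_w - y|_w)` -/
noncomputable def mw (ξ : mixedSpace K) (w : InfinitePlace K) (y : K) : ℝ :=
  (w.mult : ℝ) * Real.log (max 1 (normAtPlace w (ξ - mixedEmbedding K y))⁻¹) /
    (Module.finrank ℚ K : ℝ)

/-- the proximity function at the prime `v`: `log max (1, 1 / |η_v - y|_v) / [K : ℚ]`, with the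
absolute value for which a uniformiser has absolute value `1 / N(v)` -/
noncomputable def mv (η : FinAd K) (v : HeightOneSpectrum (𝓞 K)) (y : K) : ℝ :=
  Real.log (max 1 ‖(η v : v.adicCompletion K) - FinitePlace.embedding v y‖⁻¹) /
    (Module.finrank ℚ K : ℝ)

/-- the proximity function `m_V` at all infinite places and at the primes in `V` -/
noncomputable def prox (V : Finset (HeightOneSpectrum (𝓞 K))) (u : mixedSpace K × FinAd K)
    (y : K) : ℝ :=
  ∑ w : InfinitePlace K, mw u.1 w y + ∑ v ∈ V, mv u.2 v y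

/-- the exponent: a continuous, increasing, piecewise linear function with `g(0) = 1/3` and
`g(s) = s` for `s ≥ 1` -/
noncomputable def g (s : ℝ) : ℝ :=
  if s ≤ 11 / 34 then 1 / 3 + 4 * s / 3
  else if s ≤ 1 / 2 then 9 / 16 + 5 * s / 8
  else if s ≤ 7 / 12 then 5 / 8 + s / 2
  else if s ≤ 2 / 3 then 1 / 3 + s
  else if s ≤ 1 then 1
  else s

/-- the lower bound for all Lattès maps of invariant `j = 1728 y` -/
def Good (θ κ : ℝ) (y : K) : Prop := Lehmer κ (θ ^ 6 / 290000) (1728 * y)

/-- the member of the family `j = F(t) / G(t)` at `t` is an elliptic curve with the lower bound for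
all Lattès maps -/
def GoodMember (F G : K[X]) (θ κ : ℝ) (t : K) : Prop :=
  G.eval t ≠ 0 ∧ Lehmer κ (θ ^ 6 / 290000) (F.eval t / G.eval t)

/-- the pairs `(F, G)` of coprime polynomials for which `F / G` has at least two different poles on the
projective line over the algebraic closure -/
def Family (K : Type) [Field K] [NumberField K] : Set (K[X] × K[X]) :=
  {f | IsCoprime f.1 f.2 ∧ f.2 ≠ 0 ∧ TwoPoles K f.1 f.2}

/-- the elements of `K` which approximate `ξ` of order `τ` with respect to the relative height,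
up to the factor `B` -/
def Close {Y : Type} [MetricSpace Y] (c : K → Y) (ξ : Y) (B τ : ℝ) (y : K) : Prop :=
  dist ξ (c y) ≤ B * Real.exp (-(τ * ((Module.finrank ℚ K : ℝ) * absH y)))

private lemma hd : (0 : ℝ) < (Module.finrank ℚ K : ℝ) := Q273.AD.dg_pos

private lemma hab (y : K) : Height.logHeight₁ y = (Module.finrank ℚ K : ℝ) * absH y := by
  unfold absH
  rw [mul_div_cancel₀ _ (hd (K := K)).ne']

private lemma ew (u : mixedSpace K × FinAd K) (w : InfinitePlace K) (y : K) : (w.mult : ℝ) *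
    Q273.AD.pw (fun _ : Fin 1 => u.1) w (fun _ => y) =
      (Module.finrank ℚ K : ℝ) * mw u.1 w y := by
  unfold mw Q273.AD.pw
  rw [ciSup_const, mul_div_cancel₀ _ (hd (K := K)).ne']

private lemma ev (u : mixedSpace K × FinAd K) (v : HeightOneSpectrum (𝓞 K)) (y : K) :
    Q273.AD.pv v (Q273.AD.Ph1 u.2 v) (fun _ => y) = (Module.finrank ℚ K : ℝ) * mv u.2 v y := by
  unfold mv
  rw [mul_div_cancel₀ _ (hd (K := K)).ne']
  show Real.log (max 1 (⨆ _ : Fin 1, ‖(u.2 v : v.adicCompletion K) -
    FinitePlace.embedding v y‖)⁻¹) = _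
  rw [ciSup_const]

private lemma ep (V : Finset (HeightOneSpectrum (𝓞 K))) (u : mixedSpace K × FinAd K)
    (y : K) : Q273.AD.prA V ((fun _ => u.1, Q273.AD.Ph1 u.2) :
      (Fin 1 → mixedSpace K) × Q273.AD.FinAd K 1) (fun _ => y) =
        (Module.finrank ℚ K : ℝ) * prox V u y := by
  unfold prox Q273.AD.prA
  rw [Q273.AD.prox_eq, mul_add, Finset.mul_sum, Finset.mul_sum]
  congr 1
  · exact Finset.sum_congr rfl fun w _ => ew u w _
  · exact Finset.sum_congr rfl fun v _ => ev u v _

open scoped Classical in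
/-- **Main theorem.** There are numbers `A(f) > 0`, depending only on the family `f`, such that:
(1) for almost every adelic point `u`, all finite sets `V` of primes, all `0 < θ ≤ 1`, `κ ≥ 0` and
`ε > 0`, (a) if `θ + κ < 2`, the lower bound holds for all but finitely many `y ∈ K` with
`m_V(y) ≥ (g(θ + κ) + ε) h(y)`, (b) for every family `f` it holds for all but finitely many members
with `m_V(t) ≥ (A(f) (θ + κ) + ε) h(t)`, and (c) for all `δ < 2` infinitely many `y` have
`m_V(y) ≥ δ h(y)`;
(2) for every map `c` of `K` to a metric space and `τ > 0`, all targets `ξ` outside a set of Hausdorff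
dimension at most `g(θ + κ) / τ`, respectively `A(f) (θ + κ) / τ`, have only finitely many
approximations of order `τ` without the lower bound;
(3) all targets outside a set of dimension zero have, for every family `f` and every `τ > 0`, numbers
`θ, κ > 0` such that only finitely many approximations of order `τ` are without the lower bound. -/
theorem result (K : Type) [Field K] [NumberField K] : ∃ A : K[X] × K[X] → ℝ, (∀ f, 0 < A f) ∧
    (∀ [MeasurableSpace (FinAd K)] [BorelSpace (FinAd K)] (μ : Measure (FinAd K))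
      [IsFiniteMeasure μ] [μ.IsAddLeftInvariant],
      ∀ᵐ u : mixedSpace K × FinAd K ∂(volume.prod μ),
        ∀ V : Finset (HeightOneSpectrum (𝓞 K)),
          (∀ θ κ ε : ℝ, 0 < θ → θ ≤ 1 → 0 ≤ κ → 0 < ε →
            (θ + κ < 2 → {y : K | (g (θ + κ) + ε) * absH y ≤ prox V u y ∧ ¬ Good θ κ y}.Finite) ∧
            ∀ f ∈ Family K, {t : K | (A f * (θ + κ) + ε) * absH t ≤ prox V u t ∧
              ¬ GoodMember f.1 f.2 θ κ t}.Finite) ∧
          ∀ δ : ℝ, δ < 2 → {y : K | δ * absH y ≤ prox V u y}.Infinite) ∧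
    (∀ (Y : Type) [MetricSpace Y] (c : K → Y),
      (∀ τ θ κ : ℝ, 0 < τ → 0 < θ → θ ≤ 1 → 0 ≤ κ →
        (θ + κ < 2 → ∃ E : Set Y, dimH E ≤ ENNReal.ofReal (g (θ + κ) / τ) ∧ ∀ ξ ∉ E, ∀ B : ℝ,
          {y : K | Close c ξ B τ y ∧ ¬ Good θ κ y}.Finite) ∧
        ∀ f ∈ Family K, ∃ E : Set Y, dimH E ≤ ENNReal.ofReal (A f * (θ + κ) / τ) ∧
          ∀ ξ ∉ E, ∀ B : ℝ, {t : K | Close c ξ B τ t ∧ ¬ GoodMember f.1 f.2 θ κ t}.Finite) ∧
      ∃ E : Set Y, dimH E = 0 ∧ ∀ ξ ∉ E, ∀ f ∈ Family K, ∀ τ : ℝ, 0 < τ →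
        ∃ θ κ : ℝ, 0 < θ ∧ θ ≤ 1 ∧ 0 < κ ∧ ∀ B : ℝ,
          {t : K | Close c ξ B τ t ∧ ¬ GoodMember f.1 f.2 θ κ t}.Finite) := by
  obtain ⟨A, hA, hc⟩ := Q273.LF.exists_A K
  have hd := hd (K := K)
  refine ⟨A, hA, ?_, ?_⟩
  · intro _ _ μ _ _
    filter_upwards [Q273.LF.laws_ae hA hc μ] with u hu
    intro V
    obtain ⟨h1, h2⟩ := hu V
    have key : ∀ (a : ℝ) (y : K), a * absH y ≤ prox V u y ↔ a * Height.logHeight₁ y ≤
        Q273.AD.prA V ((fun _ => u.1, Q273.AD.Ph1 u.2) :
          (Fin 1 → mixedSpace K) × Q273.AD.FinAd K 1) (fun _ => y) := by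
      intro a y
      have e : a * ((Module.finrank ℚ K : ℝ) * absH y) =
          (Module.finrank ℚ K : ℝ) * (a * absH y) := by ring
      rw [ep, hab, e]
      exact (mul_le_mul_iff_right₀ hd).symm
    refine ⟨fun θ κ ε hθ hθ1 hκ hε => ⟨fun hs => ?_, fun f hf => ?_⟩, fun δ hδ => ?_⟩
    · refine (((h1 θ κ ε hθ hθ1 hκ hε).1 hs).union (Set.toFinite {0, 1})).subset ?_
      rintro y ⟨h3, h4⟩
      by_cases h5 : y = 0
      · exact Or.inr (Or.inl h5)
      by_cases h6 : y = 1
      · exact Or.inr (Or.inr h6)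
      exact Or.inl ⟨⟨h5, h6, h4⟩, (key _ y).1 h3⟩
    · refine ((h1 θ κ ε hθ hθ1 hκ hε).2 f hf).subset ?_
      rintro t ⟨h3, h4⟩
      exact ⟨h4, (key _ t).1 h3⟩
    · refine (h2 δ hδ).mono ?_
      intro y hy
      exact (key δ y).2 hy
  · intro Y _ c
    have hcl : ∀ (ξ : Y) (B τ : ℝ) (y : K), Close c ξ B τ y →
        dist ξ (c y) ≤ B * Real.exp (-(τ * Height.logHeight₁ y)) := by
      intro ξ B τ y h
      rw [hab]
      exact h
    refine ⟨fun τ θ κ hτ hθ hθ1 hκ => ⟨fun hs => ?_, fun f hf => ?_⟩, ?_⟩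
    · obtain ⟨E, hE1, hE2⟩ := Q273.LF.dim_set c (S := Q273.LF.Ex K θ κ)
        (Q273.LF.Gx_nonneg (by linarith)) hτ
        (fun δ hδ => Q273.LF.countG K hθ hθ1 hκ hs.le δ hδ)
      refine ⟨E, hE1, fun ξ hξ B => ?_⟩
      refine ((hE2 ξ hξ B).union (Set.toFinite {0, 1})).subset ?_
      rintro y ⟨h3, h4⟩
      by_cases h5 : y = 0
      · exact Or.inr (Or.inl h5)
      by_cases h6 : y = 1
      · exact Or.inr (Or.inr h6)
      exact Or.inl ⟨⟨h5, h6, h4⟩, hcl _ _ _ _ h3⟩
    · obtain ⟨E, hE1, hE2⟩ := Q273.LF.dim_set c (S := Q273.LF.ExF f.1 f.2 θ κ)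
        (s := A f * (θ + κ)) (by have := hA f; positivity) hτ
        (fun δ hδ => hc f hf θ κ hθ hθ1 hκ δ hδ)
      refine ⟨E, hE1, fun ξ hξ B => (hE2 ξ hξ B).subset ?_⟩
      rintro t ⟨h3, h4⟩
      exact ⟨h4, hcl _ _ _ _ h3⟩
    · obtain ⟨E, hE1, hE2⟩ := Q273.LF.dim_zero hA hc c
      refine ⟨E, hE1, fun ξ hξ f hf τ hτ => ?_⟩
      obtain ⟨θ, κ, h1, h2, h3, h4⟩ := hE2 ξ hξ f hf τ hτ
      refine ⟨θ, κ, h1, h2, h3, fun B => (h4 B).subset ?_⟩
      rintro t ⟨h5, h6⟩
      exact ⟨h6, hcl _ _ _ _ h5⟩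

end Pool.Agent.Results.MP_2194ec_nt.NearAlmostEveryAdele
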