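import Pool.Agent.Q84.NX.Fam3
import Pool.Agent.Q84.NX.Rad
import Pool.Agent.Results.MP_2194ec_nt.LattesFamilies

/-!
# The dynamical Lehmer inequality for Lattès maps in one-parameter families at the parameters related to the primes of a string

Let `K` be a number field and `j = F/G` a nonconstant rational function over `K` with at least two different poles on the
projective line over the algebraic closure. There is `A₀` with the following property. Let `L/K` be a number field, `S₀` a
finite subset of `L`, `0 < θ ≤ 1`, `λ ≥ 0`, `A > 0` with `A A₀ (θ + λ) < 1`. There is `c > 0`, for all `κ > 0` and `m` there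
is `c' > 0` and for every `Z` a number `D` with the following property. For every large `X` there is a set `S` of at most
`(log X) ^ (49 / 50)` primes, all larger than `Z`, such that for EVERY function `g` with values `1` and `-1` on the primes
at least `X ^ (1 - κ)` integers `n`, `X < n ≤ 3X`, satisfy: the interval `[n, n + D]` contains at least `m` primes, and for
every prime `p` in it

* the Legendre symbol `(p / q)` is `g q` for all odd primes `q ≤ c' log X` outside `S`;
* for ALL `t` in `L` of relative height at most `p ^ A`, not in `S₀`, for which the product of the norms of the poles of `t`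
  and of the zeros of `t - a`, `a` in `S₀`, has a divisor within `p ^ c` of a positive multiple of `p` (for instance: `t` has a
  pole or is congruent to some `a` in `S₀` at a prime over `p`), over ALL finite extensions `M` of `L`, of whatever degree,
  with root discriminant `δ_M ≤ δ_L H(j(t)) ^ λ`, for all elliptic curves over `M` of invariant `j(t)` and all `m ≥ 2`, the
  canonical heights for the Lattès map `φ_m` of all wandering points of the projective line over `M` are at least
  `(θ ^ 6 / 290000) (1 + h(j(t)))`.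

Method: `LattesFamilies` (count of the exceptional parameters); the divisor bound; few primes divide a number near a divisor
of one of the products (`Q84/NX/Core`, `Q84/NX/TriJ`); the Maynard-Tao theorem relative to a modulus which is a small power of
`X`, in the form that it avoids arbitrary exceptional sets of size `X ^ (1 - η)` (`Q84/MB/E1-E4`), gives the strings.
-/

set_option autoImplicit false

open scoped Classical

namespace Pool.Agent.Results.MP_2194ec_nt.StringsOfPrimes

open Finset Filter NumberField Polynomial Height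
open Pool.Agent.Q84.NX (rad)
open Pool.Agent.Results.MP_2194ec_nt.LattesDegreeFree (Lehmer)
open Pool.Agent.Results.MP_2194ec_nt.LattesFamilies (TwoPoles)

/-- the bound for all Lattès maps of invariant `F(t)/G(t)`, for all `t` in `L` outside `S₀` of relative height at most
`p ^ A` for which the product of the norms of the poles of `t` and of the zeros of `t - a`, `a` in `S₀`, has a divisor `r`
within `p ^ c` of a positive multiple of `p` -/
def Fine {K : Type} [Field K] (F G : K[X]) (L : Type) [Field L] [NumberField L] [Algebra K L] (S₀ : Finset L)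
    (θ lam A c : ℝ) (p : ℕ) : Prop :=
  ∀ (t : L) (k r : ℕ), t ≠ 0 → t ∉ S₀ → mulHeight₁ t ≤ (p : ℝ) ^ A → 1 ≤ k → |(r : ℝ) - k * p| ≤ (p : ℝ) ^ c →
    r ∣ rad t⁻¹ * ∏ a ∈ S₀, rad (t - a) →
    (G.map (algebraMap K L)).eval t ≠ 0 ∧
      Lehmer lam (θ ^ 6 / 290000) ((F.map (algebraMap K L)).eval t / (G.map (algebraMap K L)).eval t)

/-- **Theorem.** -/
theorem result (K : Type) [Field K] [NumberField K] (F G : K[X]) (hFG : IsCoprime F G) (hG : G ≠ 0)
    (hne : 0 < F.natDegree ∨ 0 < G.natDegree) (h2 : TwoPoles K F G) : ∃ A₀ : ℝ, 0 < A₀ ∧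
    ∀ (L : Type) [Field L] [NumberField L] [Algebra K L] (S₀ : Finset L) (θ lam A : ℝ), 0 < θ → θ ≤ 1 → 0 ≤ lam →
    0 < A → A * (A₀ * (θ + lam)) < 1 → ∃ c : ℝ, 0 < c ∧
    ∀ κ : ℝ, 0 < κ → ∀ m : ℕ, ∃ c' : ℝ, 0 < c' ∧
    ∀ Z : ℕ, ∃ D : ℕ, ∃ X₀ : ℝ, ∀ X : ℝ, X₀ ≤ X →
    ∃ S : Finset ℕ, (∀ q ∈ S, q.Prime ∧ Z < q) ∧ (S.card : ℝ) ≤ (Real.log X) ^ (49 / 50 : ℝ) ∧
    ∀ g : ℕ → ℤ, (∀ q, g q = 1 ∨ g q = -1) →
      X ^ (1 - κ) ≤ (((Icc 1 ⌊3 * X⌋₊).filter fun n : ℕ => X < n ∧
        m ≤ ((Icc n (n + D)).filter Nat.Prime).card ∧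
        ∀ p ∈ Icc n (n + D), p.Prime → Fine F G L S₀ θ lam A c p ∧
          ∀ q : ℕ, q.Prime → q ≠ 2 → (q : ℝ) ≤ c' * Real.log X → q ∉ S → jacobiSym p q = g q).card : ℝ) := by
  obtain ⟨A₀, hA₀, hmain⟩ := LattesFamilies.result.1 K F G hFG hG hne
  refine ⟨A₀, hA₀, fun L _ _ _ S₀ θ lam A hθ hθ1 hlam hA hAA => ?_⟩
  obtain ⟨ε, hε⟩ : ∃ ε, ε = (1 - A * (A₀ * (θ + lam))) / (2 * A) := ⟨_, rfl⟩
  have hε0 : 0 < ε := by rw [hε]; exact div_pos (by linarith) (by linarith)
  have hAε : A * (A₀ * (θ + lam) + ε) < 1 := by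
    have h1 : A * ε = (1 - A * (A₀ * (θ + lam))) / 2 := by
      rw [hε]
      field_simp
    rw [mul_add, h1]
    linarith
  obtain ⟨C, hC0, hC⟩ := hmain (Module.finrank ℚ L) θ lam ε hθ hθ1 hlam hε0
  obtain ⟨E, hE⟩ : ∃ E : ℝ → Set L, E = fun B : ℝ => {t : L | t ≠ 0 ∧ t ∉ S₀ ∧
      t ∈ LattesFamilies.Exceptional F G L θ lam B} := ⟨_, rfl⟩
  have hmono : ∀ B B' : ℝ, B ≤ B' → E B ⊆ E B' := by
    intro B B' hBB t ht
    rw [hE] at ht ⊢
    exact ⟨ht.1, ht.2.1, ht.2.2.1.trans hBB, ht.2.2.2⟩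
  obtain ⟨M, hM⟩ : ∃ M : ℝ, 1 ≤ M ∧ ∀ a ∈ S₀, 2 ^ totalWeight L * mulHeight₁ a ≤ M := by
    refine ⟨1 + ∑ a ∈ S₀, 2 ^ totalWeight L * mulHeight₁ a, ?_, ?_⟩
    · have : 0 ≤ ∑ a ∈ S₀, 2 ^ totalWeight L * mulHeight₁ a :=
        sum_nonneg fun a _ => mul_nonneg (by positivity) (zero_le_one.trans (one_le_mulHeight₁ a))
      linarith
    · intro a ha
      have h1 := single_le_sum (f := fun a : L => 2 ^ totalWeight L * mulHeight₁ a)
        (fun b _ => mul_nonneg (by positivity) (zero_le_one.trans (one_le_mulHeight₁ b))) ha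
      linarith
  have hcount : ∀ B : ℝ, 1 ≤ B → (E B).Finite ∧ ((E B).ncard : ℝ) ≤ C * B ^ (A₀ * (θ + lam) + ε) := by
    intro B hB
    obtain ⟨h1, -, h3⟩ := hC L le_rfl B hB
    have hsub : E B ⊆ LattesFamilies.Exceptional F G L θ lam B := by
      intro t ht
      rw [hE] at ht
      exact ht.2.2
    refine ⟨h1.subset hsub, le_trans ?_ (h3 h2)⟩
    exact_mod_cast Set.ncard_le_ncard hsub h1
  obtain ⟨c, hc, -, hstr⟩ := Pool.Agent.Q84.NX.obj_strings E hmono (fun t : L => rad t⁻¹ * ∏ a ∈ S₀, rad (t - a))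
    (1 + 2 * S₀.card) (by omega) M (by
      intro B hB t ht
      rw [hE] at ht
      obtain ⟨ht0, htS, htB, -⟩ := ht
      have hB1 : 1 ≤ B := hM.1.trans hB
      obtain ⟨h3, h4⟩ := Pool.Agent.Q84.NX.rad_le t⁻¹ (inv_ne_zero ht0)
      rw [mulHeight₁_inv] at h4
      have h5 : ∀ a ∈ S₀, 1 ≤ rad (t - a) ∧ (rad (t - a) : ℝ) ≤ B ^ 2 := by
        intro a ha
        have hta : t - a ≠ 0 := by
          intro h
          apply htS
          rw [sub_eq_zero.1 h]
          exact ha
        obtain ⟨h6, h7⟩ := Pool.Agent.Q84.NX.rad_le (t - a) hta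
        refine ⟨h6, h7.trans ((mulHeight₁_sub_le t a).trans ?_)⟩
        calc 2 ^ totalWeight L * mulHeight₁ t * mulHeight₁ a = (2 ^ totalWeight L * mulHeight₁ a) * mulHeight₁ t := by ring
          _ ≤ B * B := mul_le_mul ((hM.2 a ha).trans hB) htB (zero_le_one.trans (one_le_mulHeight₁ t)) (by linarith)
          _ = B ^ 2 := by ring
      constructor
      · exact Nat.mul_pos h3 (Finset.prod_pos fun a ha => (h5 a ha).1)
      · push_cast
        rw [pow_add, pow_one, pow_mul]
        apply mul_le_mul (h4.trans htB) _ (prod_nonneg fun a _ => Nat.cast_nonneg _) (by linarith)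
        calc ∏ a ∈ S₀, (rad (t - a) : ℝ) ≤ ∏ _a ∈ S₀, B ^ 2 := prod_le_prod (fun a _ => Nat.cast_nonneg _) fun a ha => (h5 a ha).2
          _ = (B ^ 2) ^ S₀.card := by rw [prod_const])
    A (A₀ * (θ + lam) + ε) C hA (by positivity) hAε hcount
  refine ⟨c, hc, ?_⟩
  have hF : ∀ p : ℕ, Pool.Agent.Q84.NX.NoDiv E (fun t : L => rad t⁻¹ * ∏ a ∈ S₀, rad (t - a)) A c p ↔
      Fine F G L S₀ θ lam A c p := by
    intro p
    unfold Pool.Agent.Q84.NX.NoDiv Fine
    rw [hE]
    constructor
    · intro h t k r ht0 htS htp hk hkr hr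
      by_contra hcon
      exact h t ⟨ht0, htS, htp, hcon⟩ k r hk hkr hr
    · rintro h t ⟨ht0, htS, htp, ht⟩ k r hk hkr hr
      exact ht (h t k r ht0 htS htp hk hkr hr)
  simp only [hF] at hstr
  exact hstr

end Pool.Agent.Results.MP_2194ec_nt.StringsOfPrimes
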